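import Pool.Agent.Lib.MP_bae66e_nt.EF.Fin2

/-!
# The Hardy-Littlewood formula for `m = p + r q` with `p`, `r` at most powers of `log m`, for almost all even `m`

For almost all even `m` the numbers of the primes `p ≤ 2R²` with `(m - p)/r` prime, `r` running through the
primes of `(R, 2R]`, are on average over `r`, with any bounded weights, asymptotic to `𝔖(m) π(2R²)/(r log m)`.
Consequently (with an upper bound sieve for each `r`) they are at least a constant times this for a positive
proportion of the `r`.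
-/

set_option autoImplicit false

namespace Pool.Agent.Results.MP_bae66e_nt.HardyLittlewoodE2

open Finset Real

/-- The twin prime constant, the product of `1 - 1/(p-1)^2` over the odd primes `p`. -/
noncomputable def twinConst : ℝ :=
  ∏' p : Nat.Primes, (if (p : ℕ) = 2 then (1 : ℝ) else 1 - 1 / (((p : ℕ) : ℝ) - 1) ^ 2)

/-- The singular series of Goldbach's problem: twice the twin prime constant, times the product of
`(p-1)/(p-2)` over the odd primes `p` dividing `m`. -/
noncomputable def sing (m : ℕ) : ℝ :=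
  2 * twinConst * ∏ p ∈ m.primeFactors.erase 2, (((p : ℝ) - 1) / ((p : ℝ) - 2))

/-- The primes `r` with `R < r ≤ 2R`. -/
def primesNear (R : ℕ) : Finset ℕ := {r ∈ Ioc R (2 * R) | r.Prime}

open Classical in
/-- The number of the primes `p ≤ 2R²` such that `m = p + r q` for a prime `q`. -/
noncomputable def reps (m R r : ℕ) : ℕ :=
  #{p ∈ Icc 1 (2 * R ^ 2) | p.Prime ∧ ∃ q : ℕ, q.Prime ∧ m = p + r * q}

/-- The number of these primes expected by Hardy and Littlewood, `𝔖(m) π(2R²) / (r log m)`. -/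
noncomputable def expected (m R r : ℕ) : ℝ :=
  sing m * ((Nat.primeCounting (2 * R ^ 2) : ℝ) / (r * log m))

/-- The asymptotic formula with the weights `α(r)` and the relative error `ε`. -/
def Formula (ε : ℝ) (α : ℕ → ℂ) (m R : ℕ) : Prop :=
  ‖∑ r ∈ primesNear R, α r * (reps m R r - expected m R r)‖ ≤ ε * ∑ r ∈ primesNear R, expected m R r

/-- At least the proportion `c` of the primes `r` in `(R, 2R]` have at least `c` times the expected number
of representations. -/
def ManyGood (c : ℝ) (m R : ℕ) : Prop :=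
  c * #(primesNear R) ≤ #{r ∈ primesNear R | c * expected m R r ≤ reps m R r}

open Classical in
/-- There are `c > 0` and `a₀` such that for all `A` and `ε, δ > 0`, all large `N`, all `R` with
`(log N)^a₀ ≤ R ≤ (log N)^A` and all complex weights with `|α(r)| ≤ 1`, all but at most `δ N` of the even
`m ≤ N` satisfy the asymptotic formula, and consequently have many good `r`. -/
theorem result : ∃ c a₀ : ℝ, 0 < c ∧ ∀ A ε δ : ℝ, 0 < ε → 0 < δ → ∃ N₀ : ℕ, ∀ N : ℕ, N₀ ≤ N →
    ∀ R : ℕ, (log (N : ℝ)) ^ a₀ ≤ R → (R : ℝ) ≤ (log (N : ℝ)) ^ A →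
    ∀ α : ℕ → ℂ, (∀ r, ‖α r‖ ≤ 1) →
      (#{m ∈ Icc 1 N | Even m ∧ ¬ (Formula ε α m R ∧ ManyGood c m R)} : ℝ) ≤ δ * N := by
  obtain ⟨c, a₀, hc, hmain⟩ := Pool.Agent.Lib.MP_bae66e_nt.EF.final_form
  refine ⟨c, a₀, hc, fun A ε δ hε hδ => ?_⟩
  obtain ⟨N₀, h⟩ := hmain A ε δ hε hδ
  refine ⟨N₀, fun N hN R h1 h2 α hα => le_trans (Nat.cast_le.2 (card_le_card fun m hm => ?_))
    (h N hN R h1 h2 α hα)⟩
  rw [mem_filter] at hm ⊢
  refine ⟨hm.1, hm.2.1, fun hcon => hm.2.2 ?_⟩
  obtain ⟨e1, e2⟩ := hcon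
  refine ⟨?_, e2⟩
  unfold Formula
  refine le_trans (le_of_eq ?_) e1
  congr 1
  refine Finset.sum_congr rfl fun r _ => ?_
  rw [Complex.ofReal_sub, Complex.ofReal_natCast]
  rfl

end Pool.Agent.Results.MP_bae66e_nt.HardyLittlewoodE2
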