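import Pool.Agent.Lib.MP_bae66e_nt.TF.Fin
import Pool.Agent.Lib.MP_bae66e_nt.TF.Fin2
import Pool.Agent.Lib.MP_bae66e_nt.E3.F8

/-!
# The Hardy-Littlewood formula for `m = p + r₁ r₂ q` with `p ≤ log m (log log m)^C`, for almost all even `m`

For almost all even `m` the number of the representations `m = p + r₁ r₂ q` with primes `p ≤ y`, `r₁ ∈ (R, 2R]`,
`r₂ ∈ (R^ℓ, 2 R^ℓ]` and `q` is asymptotic to the number expected by Hardy and Littlewood, for every `y` from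
`log N (log log N)^(c+4)` on. For `p ≤ log m (log log m)^(1 - ε)` almost no even `m` has a representation.
-/

set_option autoImplicit false

namespace Pool.Agent.Results.MP_bae66e_nt.HardyLittlewoodE3

open Finset Real

/-- The twin prime constant, the product of `1 - 1/(p-1)^2` over the odd primes `p`. -/
noncomputable def twinConst : ℝ :=
  ∏' p : Nat.Primes, (if (p : ℕ) = 2 then (1 : ℝ) else 1 - 1 / (((p : ℕ) : ℝ) - 1) ^ 2)

/-- The singular series of Goldbach's problem: twice the twin prime constant, times the product of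
`(p-1)/(p-2)` over the odd primes `p` dividing `m`. -/
noncomputable def sing (m : ℕ) : ℝ :=
  2 * twinConst * ∏ p ∈ m.primeFactors.erase 2, (((p : ℝ) - 1) / ((p : ℝ) - 2))

/-- The primes `r` with `R < r ≤ 2R`. -/
def primesNear (R : ℕ) : Finset ℕ := {r ∈ Ioc R (2 * R) | r.Prime}

open Classical in
/-- The number of the representations `m = p + r₁ r₂ q` with primes `p ≤ y`, `r₁ ∈ (R₁, 2R₁]`,
`r₂ ∈ (R₂, 2R₂]` and `q` (as triples `(p, r₁, r₂)`). -/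
noncomputable def reps (m R₁ R₂ y : ℕ) : ℕ :=
  #{x ∈ Icc 1 y ×ˢ primesNear R₁ ×ˢ primesNear R₂ | x.1.Prime ∧ ∃ q : ℕ, q.Prime ∧ m = x.1 + x.2.1 * x.2.2 * q}

/-- The number of these representations expected by Hardy and Littlewood,
`𝔖(m) π(y) / log m · ∑ 1 / r₁ · ∑ 1 / r₂`. -/
noncomputable def expected (m R₁ R₂ y : ℕ) : ℝ :=
  sing m * ((Nat.primeCounting y : ℝ) / log m) *
    ((∑ r ∈ primesNear R₁, 1 / (r : ℝ)) * ∑ r ∈ primesNear R₂, 1 / (r : ℝ))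

/-- The asymptotic formula with the relative error `ε`. -/
def Formula (ε : ℝ) (m R₁ R₂ y : ℕ) : Prop :=
  |(reps m R₁ R₂ y : ℝ) - expected m R₁ R₂ y| ≤ ε * expected m R₁ R₂ y

/-- `m = p + r₁ r₂ q` with primes `p ≤ y`, `r₁, r₂ ≤ z` and `q`. -/
def Rep (m : ℕ) (y z : ℝ) : Prop :=
  ∃ p r₁ r₂ q : ℕ, p.Prime ∧ r₁.Prime ∧ r₂.Prime ∧ q.Prime ∧ m = p + r₁ * r₂ * q ∧
    (p : ℝ) ≤ y ∧ (r₁ : ℝ) ≤ z ∧ (r₂ : ℝ) ≤ z

open Classical in
/-- There are absolute constants `a ≥ 3` and `c ≥ 2` such that, with `l = log log N`: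

* for all `ε, δ > 0` and large `N`, for all integers `R`, `ℓ`, `y` with `l^c / 4 ≤ R ≤ l^c / 2`,
  `(log N)^a ≤ R^ℓ ≤ (log N)^(a+1) / 2` and `log N · l^(c+4) ≤ y ≤ (log N)^a / 2`, all but at most `δ N` of the even
  `m ≤ N` satisfy the asymptotic formula for the representations `m = p + r₁ r₂ q` with `p ≤ y`,
  `r₁ ∈ (R, 2R]`, `r₂ ∈ (R^ℓ, 2 R^ℓ]`;
* for all `A ≥ 1`, `0 < ε ≤ 1`, `δ > 0` and large `N`, all but at most `δ N` of the `m ≤ N` have no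
  representation with `p ≤ log m (log log m)^(1 - ε)` and `r₁, r₂ ≤ (log m)^A`. -/
theorem result : (∃ a c : ℝ, 3 ≤ a ∧ 2 ≤ c ∧ ∀ ε δ : ℝ, 0 < ε → 0 < δ → ∃ N₀ : ℕ, ∀ N : ℕ, N₀ ≤ N → ∀ R ℓ y : ℕ,
      (log (log N)) ^ c / 4 ≤ R → (R : ℝ) ≤ (log (log N)) ^ c / 2 →
      (log N) ^ a ≤ (R : ℝ) ^ ℓ → (R : ℝ) ^ ℓ ≤ (log N) ^ (a + 1) / 2 →
      log N * (log (log N)) ^ (c + 4) ≤ y → (y : ℝ) ≤ (log N) ^ a / 2 →
        (#{m ∈ Icc 1 N | Even m ∧ ¬ Formula ε m R (R ^ ℓ) y} : ℝ) ≤ δ * N) ∧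
    ∀ A ε δ : ℝ, 1 ≤ A → 0 < ε → ε ≤ 1 → 0 < δ → ∃ N₀ : ℕ, ∀ N : ℕ, N₀ ≤ N →
      (#{m ∈ Icc 1 N | Rep m (log m * (log (log m)) ^ (1 - ε)) ((log m) ^ A)} : ℝ) ≤ δ * N := by
  constructor
  · obtain ⟨a, c, ha, hc, hF⟩ := Pool.Agent.Lib.MP_bae66e_nt.TF.final_t
    refine ⟨a, c, ha, hc, fun ε δ hε hδ => ?_⟩
    obtain ⟨N₁, h1⟩ := hF ε δ hε hδ
    obtain ⟨N₂, h2⟩ := Pool.Agent.Lib.MP_bae66e_nt.TF.two_le a c ha
    refine ⟨max N₁ N₂, fun N hN R ℓ y g1 g2 g3 g4 g5 g6 => ?_⟩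
    have hR := h2 N ((le_max_right _ _).trans hN) R ℓ g2 g3
    refine le_trans (Nat.cast_le.2 (card_le_card fun m hm => ?_))
      (h1 N ((le_max_left _ _).trans hN) R ℓ y g1 g2 g3 g4 g5 g6)
    rw [mem_filter] at hm ⊢
    refine ⟨hm.1, hm.2.1, ?_⟩
    have h3 := hm.2.2
    unfold Formula at h3
    rw [not_le] at h3
    rw [Pool.Agent.Lib.MP_bae66e_nt.TF.cntT_eq R ℓ y m hR, Pool.Agent.Lib.MP_bae66e_nt.TF.BT_eq R ℓ hR]
    exact h3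
  · intro A ε δ hA hε hε1 hδ
    obtain ⟨N₀, h⟩ := Pool.Agent.E3.few_small2 A (1 - ε) hA (by linarith) (by linarith) δ hδ
    refine ⟨N₀, fun N hN => le_trans (Nat.cast_le.2 (card_le_card fun m hm => ?_)) (h N hN)⟩
    rw [mem_filter] at hm ⊢
    exact hm

end Pool.Agent.Results.MP_bae66e_nt.HardyLittlewoodE3
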