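import Pool.Agent.Lib.MP_bae66e_nt.LP.F.F5
import Pool.Agent.Lib.MP_bae66e_nt.LP.F.F6b

/-!
# All patterns of Goldbach representations with a small prime occur

`L(m) = log m loglog m`, `N m x y` is the number of primes `p` in `(x, y]` such that `m - p` is prime.
Let `h_1, …, h_r` be admissible even shifts; for each `i` let `(a_ij, b_ij]`, `j = 1, …, s`, be disjoint
intervals in `(0, ∞)`, and let `n_ij ≥ 0` be integers. There is `δ > 0` such that for a positive
proportion of the even `m` there is `κ ∈ [δ L(m), L(m)]` with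

`N (m + h_i) (κ a_ij) (κ b_ij) = n_ij` for all `i`, `j`.

One can take `δ = 1`, that is `κ = L(m)`, if any two of the intervals with `n_ij ≠ 0` overlap.

Corollaries for `g(m)`, the least prime `p` such that `m - p` is prime: every number in `[0, ∞]` is a
limit point of `g(m)/L(m)` and of `g(m + h)/g(m)`, for every even `h > 0` (`ratio`); the lower bound `c exp(-C a) min(1, b - a)` for the proportion of the even `m` with
`a L(m) < g(m) ≤ b L(m)` (`least_prime_window_explicit`).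
-/

set_option autoImplicit false

open Filter Topology

namespace Pool.Agent.Results.MP_bae66e_nt.Patterns

/-- `g(m)`: the least prime `p` such that `m - p` is prime (`0` if there is none). -/
noncomputable def g (m : ℕ) : ℕ := sInf {p : ℕ | p.Prime ∧ ∃ q : ℕ, q.Prime ∧ p + q = m}

/-- `L(m) = log m loglog m`. -/
noncomputable def L (m : ℕ) : ℝ := Real.log m * Real.log (Real.log m)

/-- The number of primes `p` with `x < p ≤ y` such that `m - p` is prime. -/
noncomputable def N (m : ℕ) (x y : ℝ) : ℕ :=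
  ((Finset.range m).filter (fun p : ℕ => p.Prime ∧ (m - p).Prime ∧ x < p ∧ (p : ℝ) ≤ y)).card

open Classical in
/-- The proportion of the even `m ≤ X` with the property `P`. -/
noncomputable def proportion (P : ℕ → Prop) (X : ℕ) : ℝ :=
  (((Finset.Icc 1 X).filter (fun m : ℕ => Even m ∧ P m)).card : ℝ) / ((X : ℝ) / 2)

/-- `P` holds for a positive proportion of the even numbers (positive lower density). -/
def Often (P : ℕ → Prop) : Prop := ∃ c : ℝ, 0 < c ∧ ∀ᶠ X : ℕ in atTop, c ≤ proportion P X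

/-- Admissible even shifts: distinct even numbers which, for every prime `p`, miss a residue class
modulo `p`. -/
def Admissible {r : ℕ} (h : Fin r → ℕ) : Prop :=
  Function.Injective h ∧ (∀ i, Even (h i)) ∧ ∀ p : ℕ, p.Prime → ∃ c : ℕ, ∀ i, ¬ (h i ≡ c [MOD p])

open Pool.Agent.Lib.MP_bae66e_nt.LP in
private lemma N_eq (m : ℕ) (x y : ℝ) : N m x y = NN m x y := rfl

open Pool.Agent.Lib.MP_bae66e_nt.LP in
private lemma g_eq (m : ℕ) : g m = gg m := rfl

private lemma proportion_ge {P : ℕ → Prop} (c : ℝ) (X : ℕ) (hX : 1 ≤ X) (S : Finset ℕ)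
    (hS : ∀ m ∈ S, m ∈ Finset.Icc 1 X ∧ Even m ∧ P m) (h : c * X ≤ (S.card : ℝ)) :
    2 * c ≤ proportion P X := by
  classical
  have hX' : (0 : ℝ) < X := by exact_mod_cast hX
  unfold proportion
  rw [le_div_iff₀ (by positivity)]
  have h1 : (S.card : ℝ) ≤ (((Finset.Icc 1 X).filter (fun m : ℕ => Even m ∧ P m)).card : ℝ) := by
    exact_mod_cast Finset.card_le_card (fun m hm => by
      rw [Finset.mem_filter]
      exact hS m hm)
  calc 2 * c * ((X : ℝ) / 2) = c * X := by ring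
    _ ≤ _ := h
    _ ≤ _ := h1

private lemma often_of_card {P : ℕ → Prop} (c : ℝ) (hc : 0 < c) (S : ℕ → Finset ℕ)
    (hS : ∀ X, ∀ m ∈ S X, m ∈ Finset.Icc 1 X ∧ Even m ∧ P m)
    (h : ∃ X₀ : ℕ, ∀ X : ℕ, X₀ ≤ X → c * X ≤ ((S X).card : ℝ)) : Often P := by
  obtain ⟨X₀, h⟩ := h
  refine ⟨2 * c, by positivity, ?_⟩
  filter_upwards [eventually_ge_atTop X₀, eventually_ge_atTop 1] with X h1 h2
  exact proportion_ge c X h2 (S X) (hS X) (h X h1)

private lemma often_mono {P Q : ℕ → Prop} (hPQ : ∀ m, P m → Q m) (h : Often P) : Often Q := by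
  classical
  obtain ⟨c, hc, h⟩ := h
  refine ⟨c, hc, ?_⟩
  filter_upwards [h, eventually_ge_atTop 1] with X h1 h2
  refine h1.trans ?_
  unfold proportion
  have hX' : (0 : ℝ) < X := by exact_mod_cast h2
  refine div_le_div_of_nonneg_right ?_ (by positivity)
  exact_mod_cast Finset.card_le_card (fun m hm => by
    rw [Finset.mem_filter] at hm ⊢
    exact ⟨hm.1, hm.2.1, hPQ m hm.2.2⟩)

open Pool.Agent.Lib.MP_bae66e_nt.LP Classical in
private lemma common_pos {r s : ℕ} (hr : 1 ≤ r) (hs : 1 ≤ s) (h : Fin r → ℕ)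
    (hadm : Admissible h) (n : Fin r → Fin s → ℕ) (a b : Fin r → Fin s → ℝ)
    (hab : ∀ i j, 0 ≤ a i j ∧ a i j < b i j)
    (hdis : ∀ i j l, j ≠ l → b i j ≤ a i l ∨ b i l ≤ a i j)
    (hcom : ∀ i j k l, n i j ≠ 0 → n k l ≠ 0 → a i j < b k l) :
    Often (fun m => ∀ i j, N (m + h i) (a i j * L m) (b i j * L m) = n i j) := by
  obtain ⟨c', hc', X₀, h1⟩ := common_Lm hr hs h hadm.1 hadm.2.1 hadm.2.2 a b hab hdis n hcom
  refine often_of_card c' hc' _ ?_ ⟨X₀, h1⟩
  intro X m hm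
  rw [Finset.mem_filter] at hm
  exact ⟨hm.1, hm.2.1, hm.2.2⟩

private lemma adm_zero : Admissible (fun _ : Fin 1 => 0) := by
  refine ⟨fun i j _ => Subsingleton.elim i j, fun _ => Even.zero, ?_⟩
  intro p hp
  refine ⟨1, fun _ h => ?_⟩
  have h1 : p ∣ 1 - 0 := (Nat.modEq_iff_dvd' (by omega)).mp h
  simp only [Nat.sub_zero, Nat.dvd_one] at h1
  exact hp.one_lt.ne' h1

open Pool.Agent.Lib.MP_bae66e_nt.LP Classical in
private lemma pattern_pos {r s : ℕ} (hr : 1 ≤ r) (hs : 1 ≤ s) (h : Fin r → ℕ)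
    (hadm : Admissible h) (n : Fin r → Fin s → ℕ) (a b : Fin r → Fin s → ℝ)
    (hab : ∀ i j, 0 ≤ a i j ∧ a i j < b i j)
    (hdis : ∀ i j l, j ≠ l → b i j ≤ a i l ∨ b i l ≤ a i j) :
    ∃ δ : ℝ, 0 < δ ∧ Often (fun m => ∃ κ : ℝ, δ * L m ≤ κ ∧ κ ≤ L m ∧ 0 < κ ∧
      ∀ i j, N (m + h i) (κ * a i j) (κ * b i j) = n i j) := by
  obtain ⟨δ, c', hδ, hc', X₀, h1⟩ := pattern_Lm hr hs h hadm.1 hadm.2.1 hadm.2.2 a b hab hdis n
  refine ⟨δ, hδ, often_of_card c' hc' _ ?_ ⟨X₀, h1⟩⟩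
  intro X m hm
  rw [Finset.mem_filter] at hm
  exact ⟨hm.1, hm.2.1, hm.2.2⟩

private lemma pattern (r s : ℕ) (h : Fin r → ℕ)
    (hadm : Admissible h) (n : Fin r → Fin s → ℕ) (a b : Fin r → Fin s → ℝ)
    (hab : ∀ i j, 0 ≤ a i j ∧ a i j < b i j)
    (hdis : ∀ i j l, j ≠ l → b i j ≤ a i l ∨ b i l ≤ a i j) :
    ∃ δ : ℝ, 0 < δ ∧ Often (fun m => ∃ κ : ℝ, δ * L m ≤ κ ∧ κ ≤ L m ∧
      ∀ i j, N (m + h i) (κ * a i j) (κ * b i j) = n i j) := by
  rcases Nat.eq_zero_or_pos r with hr | hr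
  · subst hr
    obtain ⟨δ, hδ, h1⟩ := pattern_pos le_rfl le_rfl (fun _ : Fin 1 => 0) adm_zero
      (fun _ _ : Fin 1 => 0) (fun _ _ => 0) (fun _ _ => 1) (fun _ _ => ⟨le_rfl, one_pos⟩)
      (fun _ j l hjl => absurd (Subsingleton.elim j l) hjl)
    refine ⟨δ, hδ, often_mono (fun m hm => ?_) h1⟩
    obtain ⟨κ, h2, h3, _, _⟩ := hm
    exact ⟨κ, h2, h3, fun i => i.elim0⟩
  rcases Nat.eq_zero_or_pos s with hs | hs
  · subst hs
    obtain ⟨δ, hδ, h1⟩ := pattern_pos le_rfl le_rfl (fun _ : Fin 1 => 0) adm_zero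
      (fun _ _ : Fin 1 => 0) (fun _ _ => 0) (fun _ _ => 1) (fun _ _ => ⟨le_rfl, one_pos⟩)
      (fun _ j l hjl => absurd (Subsingleton.elim j l) hjl)
    refine ⟨δ, hδ, often_mono (fun m hm => ?_) h1⟩
    obtain ⟨κ, h2, h3, _, _⟩ := hm
    exact ⟨κ, h2, h3, fun i j => j.elim0⟩
  obtain ⟨δ, hδ, h1⟩ := pattern_pos hr hs h hadm n a b hab hdis
  refine ⟨δ, hδ, often_mono (fun m hm => ?_) h1⟩
  obtain ⟨κ, h2, h3, _, h5⟩ := hm
  exact ⟨κ, h2, h3, h5⟩

private lemma adm_pair (h : ℕ) (h0 : 0 < h) (he : Even h) : Admissible (![0, h] : Fin 2 → ℕ) := by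
  refine ⟨?_, ?_, ?_⟩
  · intro i j hij
    fin_cases i <;> fin_cases j <;> simp_all
  · intro i
    fin_cases i
    · exact Even.zero
    · exact he
  · intro p hp
    rcases hp.eq_two_or_odd' with h2 | hodd
    · subst h2
      refine ⟨1, fun i hi => ?_⟩
      fin_cases i
      · have h1 : (0 : ℕ) % 2 = 1 % 2 := hi
        omega
      · simp only [Fin.mk_one, Matrix.cons_val_one, Matrix.cons_val_fin_one] at hi
        obtain ⟨k, hk⟩ := he
        have : h % 2 = 1 % 2 := hi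
        omega
    · have h3 : 3 ≤ p := by
        rcases hodd with ⟨k, hk⟩
        have := hp.two_le
        omega
      -- one of the classes `1`, `2` is not the class of `h`
      by_cases h1 : h ≡ 1 [MOD p]
      · refine ⟨2, fun i hi => ?_⟩
        fin_cases i
        · have : (0 : ℕ) % p = 2 % p := hi
          rw [Nat.zero_mod, Nat.mod_eq_of_lt (by omega)] at this
          omega
        · have hi' : h ≡ 2 [MOD p] := hi
          have : 1 ≡ 2 [MOD p] := h1.symm.trans hi'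
          have h4 : 1 % p = 2 % p := this
          rw [Nat.mod_eq_of_lt (by omega), Nat.mod_eq_of_lt (by omega)] at h4
          omega
      · refine ⟨1, fun i hi => ?_⟩
        fin_cases i
        · have : (0 : ℕ) % p = 1 % p := hi
          rw [Nat.zero_mod, Nat.mod_eq_of_lt (by omega)] at this
          omega
        · exact h1 hi

open Pool.Agent.Lib.MP_bae66e_nt.LP in
private lemma ratio_aux (h : ℕ) (h0 : 0 < h) (he : Even h) (a b : ℝ) (ha : 0 ≤ a) (hab : a < b) :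
    Often (fun m => a * (g m : ℝ) < g (m + h) ∧ (g (m + h) : ℝ) < b * g m) := by
  obtain ⟨y, hy⟩ : ∃ y : ℝ, y = (a + b) / 2 := ⟨_, rfl⟩
  have hya : a < y := by rw [hy]; linarith
  have hyb : y < b := by rw [hy]; linarith
  have hy0 : 0 < y := lt_of_le_of_lt ha hya
  obtain ⟨η, hη0, hη1, hη2⟩ : ∃ η : ℝ, 0 < η ∧ a * (1 + η) ≤ y ∧ y + η ≤ b := by
    refine ⟨min (b - y) ((y - a) / (a + 1)), lt_min (by linarith) (by
      have : 0 < a + 1 := by linarith
      exact div_pos (by linarith) this), ?_, ?_⟩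
    · have h1 : min (b - y) ((y - a) / (a + 1)) ≤ (y - a) / (a + 1) := min_le_right _ _
      have h2 : a * ((y - a) / (a + 1)) ≤ y - a := by
        rw [← mul_div_assoc, div_le_iff₀ (by linarith)]
        nlinarith
      have h3 := mul_le_mul_of_nonneg_left h1 ha
      linarith
    · have h1 : min (b - y) ((y - a) / (a + 1)) ≤ b - y := min_le_left _ _
      linarith
  obtain ⟨δ, hδ, h1⟩ := pattern_pos (r := 2) (s := 2) (by norm_num) (by norm_num) ![0, h]
    (adm_pair h h0 he) (fun _ => ![0, 1]) ![![0, 1], ![0, y]] ![![1, 1 + η], ![y, y + η]]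
    (by
      intro i j
      fin_cases i <;> fin_cases j <;> simp <;> first | positivity | (constructor <;> linarith))
    (by
      intro i j l hjl
      fin_cases i <;> fin_cases j <;> fin_cases l <;> simp_all)
  refine often_mono (fun m hm => ?_) h1
  obtain ⟨κ, _, _, hκ, h5⟩ := hm
  have e1 := h5 0 0
  have e2 := h5 0 1
  have e3 := h5 1 0
  have e4 := h5 1 1
  simp only [Matrix.cons_val_zero, Matrix.cons_val_one, Matrix.cons_val_fin_one, mul_zero, mul_one,
    add_zero] at e1 e2 e3 e4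
  have f1 := gg_of_NN m κ (κ * (1 + η)) e1 (by rw [← N_eq, e2]; exact one_ne_zero)
  have f2 := gg_of_NN (m + h) (κ * y) (κ * (y + η)) e3 (by rw [← N_eq, e4]; exact one_ne_zero)
  obtain ⟨f11, f12, _⟩ := f1
  obtain ⟨f21, f22, _⟩ := f2
  rw [← g_eq] at f11 f12 f21 f22
  constructor
  · calc a * (g m : ℝ) ≤ a * (κ * (1 + η)) := mul_le_mul_of_nonneg_left f12 ha
      _ = κ * (a * (1 + η)) := by ring
      _ ≤ κ * y := mul_le_mul_of_nonneg_left hη1 hκ.le
      _ < g (m + h) := f21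
  · calc (g (m + h) : ℝ) ≤ κ * (y + η) := f22
      _ ≤ κ * b := mul_le_mul_of_nonneg_left hη2 hκ.le
      _ = b * κ := by ring
      _ < b * g m := mul_lt_mul_of_pos_left f11 (by linarith)

open Pool.Agent.Lib.MP_bae66e_nt.LP in
private lemma window : ∃ c C : ℝ, 0 < c ∧ 0 < C ∧ ∀ a b : ℝ, 0 ≤ a → a < b → ∀ᶠ X : ℕ in atTop,
      c * Real.exp (-(C * a)) * min 1 (b - a)
        ≤ proportion (fun m => a * L m < g m ∧ (g m : ℝ) ≤ b * L m) X := by
  obtain ⟨c, C, hc, hC, h⟩ := window_Lm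
  refine ⟨c, C, hc, hC, fun a b ha hab => ?_⟩
  obtain ⟨X₀, h1⟩ := h a b ha hab
  filter_upwards [eventually_ge_atTop X₀, eventually_ge_atTop 1] with X h2 h3
  have h4 := proportion_ge (P := fun m => a * L m < g m ∧ (g m : ℝ) ≤ b * L m) _ X h3 _ ?_ (h1 X h2)
  · have h5 : 0 ≤ c * Real.exp (-(C * a)) * min 1 (b - a) := by
      have : 0 ≤ min 1 (b - a) := le_min zero_le_one (by linarith)
      positivity
    linarith
  · intro m hm
    rw [Finset.mem_filter] at hm
    exact ⟨hm.1, hm.2.1, hm.2.2⟩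

/-- **All patterns of Goldbach representations with a small prime occur**, for a positive proportion of
the even `m`, on a scale `κ ∈ [δ L(m), L(m)]`; `κ = L(m)` if any two intervals with `n i j ≠ 0`
overlap. -/
theorem result (r s : ℕ) (h : Fin r → ℕ) (hadm : Admissible h) (a b : Fin r → Fin s → ℝ)
    (hab : ∀ i j, 0 ≤ a i j ∧ a i j < b i j)
    (hdis : ∀ i j l, j ≠ l → b i j ≤ a i l ∨ b i l ≤ a i j) (n : Fin r → Fin s → ℕ) :
    ∃ δ : ℝ, 0 < δ ∧ ((∀ i j k l, n i j ≠ 0 → n k l ≠ 0 → a i j < b k l) → δ = 1) ∧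
      Often (fun m => ∃ κ : ℝ, δ * L m ≤ κ ∧ κ ≤ L m ∧
        ∀ i j, N (m + h i) (κ * a i j) (κ * b i j) = n i j) := by
  by_cases hcom : ∀ i j k l, n i j ≠ 0 → n k l ≠ 0 → a i j < b k l
  · refine ⟨1, one_pos, fun _ => rfl, ?_⟩
    rcases Nat.eq_zero_or_pos r with hr | hr
    · subst hr
      refine often_mono (fun m _ => ⟨L m, by rw [one_mul], le_rfl, fun i => i.elim0⟩)
        (common_pos le_rfl le_rfl (fun _ : Fin 1 => 0) adm_zero
          (fun _ _ : Fin 1 => 0) (fun _ _ => 0) (fun _ _ => 1) (fun _ _ => ⟨le_rfl, one_pos⟩)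
          (fun _ j l hjl => absurd (Subsingleton.elim j l) hjl)
          (fun _ _ _ _ h1 => absurd rfl h1))
    rcases Nat.eq_zero_or_pos s with hs | hs
    · subst hs
      refine often_mono (fun m _ => ⟨L m, by rw [one_mul], le_rfl, fun i j => j.elim0⟩)
        (common_pos le_rfl le_rfl (fun _ : Fin 1 => 0) adm_zero
          (fun _ _ : Fin 1 => 0) (fun _ _ => 0) (fun _ _ => 1) (fun _ _ => ⟨le_rfl, one_pos⟩)
          (fun _ j l hjl => absurd (Subsingleton.elim j l) hjl)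
          (fun _ _ _ _ h1 => absurd rfl h1))
    refine often_mono (fun m hm => ⟨L m, by rw [one_mul], le_rfl, fun i j => ?_⟩)
      (common_pos hr hs h hadm n a b hab hdis hcom)
    rw [mul_comm (L m), mul_comm (L m)]
    exact hm i j
  · obtain ⟨δ, hδ, h1⟩ := pattern r s h hadm n a b hab hdis
    exact ⟨δ, hδ, fun h2 => absurd h2 hcom, h1⟩

/-- Corollary: the ratios `g(m + h)/g(m)`. -/
theorem ratio (h : ℕ) (h0 : 0 < h) (he : Even h) (a b : ℝ) (ha : 0 ≤ a) (hab : a < b) :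
    Often (fun m => a * (g m : ℝ) < g (m + h) ∧ (g (m + h) : ℝ) < b * g m) :=
  ratio_aux h h0 he a b ha hab

/-- Corollary: the proportion of the even `m` with `a L(m) < g(m) ≤ b L(m)`. -/
theorem least_prime_window_explicit : ∃ c C : ℝ, 0 < c ∧ 0 < C ∧ ∀ a b : ℝ, 0 ≤ a → a < b →
    ∀ᶠ X : ℕ in atTop, c * Real.exp (-(C * a)) * min 1 (b - a)
        ≤ proportion (fun m => a * L m < g m ∧ (g m : ℝ) ≤ b * L m) X :=
  window

end Pool.Agent.Results.MP_bae66e_nt.Patterns
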